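import Mathlib
import Pool.Agent.W877.Full.Gen

set_option autoImplicit false

/-!
# Consistently, no `□(κ, < ω₁)` sequence is full
-/

namespace Pool.Agent.Results.MP_e93fc1_lc.NoFullSquare

open Cardinal Pool.Agent.Helper669.Forcing Pool.Agent.Helper669.K Pool.Agent.W877.Full

/-- If `κ` carries a normal measure in every extension by a `κ`-directed closed forcing notion,
then `κ > ℵ₁` and there is a forcing notion which preserves all regular cardinals up to and
including `κ` and forces that there is a `□(κ, < ω₁)` sequence, and that no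
`□(κ, < ω₁)` sequence is full. -/
theorem result (κ : Cardinal.{0}) (h : IndestructiblyNormal κ) :
    ℵ₁ < κ ∧ ∃ (P : Type) (_ : Preorder P), Nonempty P ∧ ∀ p : P,
      (∀ ν : Cardinal.{0}, ν.IsRegular → ν ≤ κ → p ∈ StaysRegular P ν) ∧
      p ∈ (fex fun X : κ.ord.ToType → ℕ → κ.ord.ToType → Set P => FSquare X) ∧
      p ∈ (fall fun X : κ.ord.ToType → ℕ → κ.ord.ToType → Set P =>
        fimp (FSquare X) (fnot (FFull X))) := by
  obtain ⟨h0, hQ⟩ := h
  obtain ⟨hκ, h2⟩ := regular_of_measurable (κ := κ) ⟨h0, fun Q _ hd q => by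
    refine mem_fex.2 fun q1 hq1 => ?_
    obtain ⟨q2, hq2, U, hU⟩ := mem_fex.1 (hQ Q hd q) q1 hq1
    exact ⟨q2, hq2, U, hU.1⟩⟩
  have h1 : ℵ₁ < κ := by
    refine lt_of_le_of_lt ?_ (h2 ℵ₀ h0)
    rw [← Cardinal.succ_aleph0]
    exact Order.succ_le_of_lt (Cardinal.cantor ℵ₀)
  have : NoMaxOrder κ.ord.ToType := Cardinal.noMaxOrder hκ.aleph0_le
  let _ : SuccOrder κ.ord.ToType := SuccOrder.ofLinearWellFoundedLT _
  have hdir : DirClosed κ (QC κ.ord.ToType Unit) :=
    dirClosed_QC hκ (fun _ => ()) (fun _ => ⟨0, rfl⟩)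
  obtain ⟨U, hU⟩ := exists_normal (hQ _ hdir)
  refine ⟨h1, SC κ.ord.ToType, inferInstance, ?_, fun p => ⟨?_, ?_, ?_⟩⟩
  · have hne : Nonempty κ.ord.ToType := by
      rw [← mk_ne_zero_iff, mk_ord_toType]
      exact hκ.pos.ne'
    obtain ⟨γ, -, hmin⟩ := WellFounded.has_min (wellFounded_lt (α := κ.ord.ToType))
      Set.univ ⟨Classical.arbitrary _, trivial⟩
    have hmin' : ∀ ξ, ¬ ξ < γ := fun ξ => hmin ξ trivial
    refine ⟨⟨γ, fun _ _ => ∅, ?_, ?_⟩⟩
    · intro β hβ n
      refine ⟨fun η hη => absurd hη (Set.notMem_empty η), fun ξ hξ => ?_, fun α hα => ?_⟩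
      · exact absurd (hξ.trans_le hβ) (hmin' ξ)
      · exact absurd (hα.trans_le hβ) (hmin' α)
    · intro β hβ n α hα
      exact absurd (hα.trans_le hβ) (hmin' α)
  · intro ν hν hνκ
    refine staysRegular_proj (Q := QC κ.ord.ToType Unit) hν ?_ (fun q => q.s)
      (fun (a b : QC κ.ord.ToType Unit) (h : a ≤ b) => h.1) (fun a q' h => ⟨lift q' a h, lift_le _ _ _, lift_s _ _ _⟩)
      (fun q' => ⟨ofS q', le_rfl⟩) p
    intro N D hN hd hdense q
    exact exists_forall_mem hκ.aleph0_le hdir (hN.trans_le hνκ) D hd hdense q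
  · exact mem_fex.2 fun q _ => ⟨q, le_rfl, gen, square_gen hκ h0 q⟩
  · intro X
    refine mem_fimp.2 fun q _ hX => ⟨q, le_rfl, fun q' hq' hfull => ?_⟩
    exact not_full hκ h1 (fun q => (hU q).1) (fun q => (hU q).2) X q'
      (down_FSquare X _ hX _ hq') hfull

end Pool.Agent.Results.MP_e93fc1_lc.NoFullSquare
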